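import Pool.Agent.J6H10.LW.Conv
import Pool.Agent.W126.RecMain

/-!
# Record gaps attached to located words
-/

set_option autoImplicit false

namespace Pool.Agent.J6H10.LW

open Filter Topology Pool.Agent.H752R3.MT Pool.Agent.W126.RecSum
open Pool.Agent.H256R2.SC (ff)

/-- the real weight of a word -/
noncomputable def wr (d : ℕ × ℕ → ℝ) (w : Wc) : ℝ := ∑ t ∈ w, d t

theorem wr_pos {d : ℕ × ℕ → ℝ} (hd : ∀ t, 0 < d t) {w : Wc} (hw : w.Nonempty) : 0 < wr d w :=
  Finset.sum_pos (fun t _ => hd t) hw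

theorem disjR {Z : ℕ → Wc} (hZ : BW Z) {i j : ℕ} (hij : i ≠ j) : Disjoint (Z i) (Z j) := by
  rw [Finset.disjoint_left]
  intro t ht ht'
  rcases Nat.lt_or_gt_of_ne hij with h | h
  · exact absurd (hZ.lt h t ht t ht') (lt_irrefl _)
  · exact absurd (hZ.lt h t ht' t ht) (lt_irrefl _)

theorem wr_biUnion (d : ℕ × ℕ → ℝ) {Z : ℕ → Wc} (hZ : BW Z) (F : Finset ℕ) :
    wr d (F.biUnion Z) = ∑ i ∈ F, wr d (Z i) := by
  unfold wr
  rw [Finset.sum_biUnion (fun i _ j _ hij => disjR hZ hij)]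

/-- forward vectors -/
def gF (H : ℝ → ℝ) (m q r k : ℕ) (d : ℕ × ℕ → ℝ) (ρ : (Fin k → Wc) → ℝ) (Z : ℕ → Wc) : Prop :=
  (fun i : Fin m => ρ (fun l => Z l) * wr d (Z (k + i))) ∈ LimH H m q r

/-- reversed vectors -/
def gR (H : ℝ → ℝ) (m q r k : ℕ) (d : ℕ × ℕ → ℝ) (ρ : (Fin k → Wc) → ℝ) (Z : ℕ → Wc) : Prop :=
  (fun i : Fin m => ρ (fun l => Z l) * wr d (Z (k + (Fin.rev i : Fin m)))) ∈ LimH H m q r

/-- the scale and the weights fit together -/
def AdmW (H : ℝ → ℝ) (d : ℕ × ℕ → ℝ) : Prop :=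
  (∀ c : ℝ, 0 < c → ∀ᶠ x : ℝ in atTop, H x ≤ c * ff x) ∨
    ((∃ C : ℝ, ∀ᶠ x : ℝ in atTop, H x ≤ C * ff x) ∧ ∃ D : ℕ → ℝ, Summable D ∧ (∀ a, 0 ≤ D a) ∧
      ∀ t, d t ≤ D t.1)

theorem AdmW.adm {H : ℝ → ℝ} {d : ℕ × ℕ → ℝ} (h : AdmW H d) (hd : ∀ t, 0 < d t) {X : ℕ → Wc}
    (hX : BW X) : Adm H (fun i => wr d (X i)) := by
  classical
  rcases h with h | ⟨h, D, hD, hD0, hdD⟩
  · exact Or.inl h
  · refine Or.inr ⟨h, ?_⟩
    refine summable_of_sum_range_le (c := ∑' a, D a) (fun i => (wr_pos hd (hX.1 i).1).le) fun n => ?_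
    rw [← wr_biUnion d hX]
    unfold wr
    have h1 : ∑ t ∈ (Finset.range n).biUnion X, d t ≤ ∑ t ∈ (Finset.range n).biUnion X, D t.1 :=
      Finset.sum_le_sum fun t _ => hdD t
    have h2 : ∑ t ∈ (Finset.range n).biUnion X, D t.1 =
        ∑ a ∈ ((Finset.range n).biUnion X).image Prod.fst, D a := by
      rw [Finset.sum_image]
      intro t ht t' ht' htt
      exact hX.fn_union _ t ht t' ht' htt
    rw [h2] at h1
    exact h1.trans (hD.sum_le_tsum _ fun a _ => hD0 a)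

theorem blk_single : Blk (fun i => ({i} : Finset ℕ)) := by
  refine ⟨fun i => Finset.singleton_nonempty i, fun i x hx y hy => ?_⟩
  rw [Finset.mem_singleton] at hx hy
  omega

theorem exFW {H : ℝ → ℝ} (hH : Scale H) (m : ℕ) {q r : ℕ} (hq : Squarefree q) (hr : r.Coprime q)
    (k : ℕ) {d : ℕ × ℕ → ℝ} (hd : ∀ t, 0 < d t) (hA : AdmW H d) (ρ : (Fin k → Wc) → ℝ)
    (hρ : ∀ P, 0 < ρ P) (X : ℕ → Wc) (hX : BW X) :
    ∃ C : ℕ → Finset ℕ, Blk C ∧ gF H m q r k d ρ (fun l => (C l).biUnion X) := by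
  obtain ⟨C, hC, -, hg⟩ := exF hH m hq hr k (d := fun i => wr d (X i))
    (fun i => wr_pos hd (hX.1 i).1) (hA.adm hd hX) (fun P => ρ fun l => (P l).biUnion X)
    (fun P => hρ _) _ blk_single
  refine ⟨C, hC, ?_⟩
  unfold goodF at hg
  unfold gF
  convert hg using 1
  funext i
  rw [wr_biUnion d hX]
  rfl

theorem exRW {H : ℝ → ℝ} (hH : Scale H) (m : ℕ) {q r : ℕ} (hq : Squarefree q) (hr : r.Coprime q)
    (k : ℕ) {d : ℕ × ℕ → ℝ} (hd : ∀ t, 0 < d t) (hA : AdmW H d) (ρ : (Fin k → Wc) → ℝ)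
    (hρ : ∀ P, 0 < ρ P) (X : ℕ → Wc) (hX : BW X) :
    ∃ C : ℕ → Finset ℕ, Blk C ∧ gR H m q r k d ρ (fun l => (C l).biUnion X) := by
  obtain ⟨C, hC, -, hg⟩ := exR hH m hq hr k (d := fun i => wr d (X i))
    (fun i => wr_pos hd (hX.1 i).1) (hA.adm hd hX) (fun P => ρ fun l => (P l).biUnion X)
    (fun P => hρ _) _ blk_single
  refine ⟨C, hC, ?_⟩
  unfold goodR at hg
  unfold gR
  convert hg using 1
  funext i
  rw [wr_biUnion d hX]
  rfl

theorem gF_congr {H : ℝ → ℝ} {m q r k : ℕ} {d : ℕ × ℕ → ℝ} {ρ : (Fin k → Wc) → ℝ}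
    {C C' : ℕ → Wc} (h : ∀ i < k + m, C' i = C i) (hg : gF H m q r k d ρ C') :
    gF H m q r k d ρ C := by
  unfold gF at hg ⊢
  have e1 : (fun l : Fin k => C' l) = fun l : Fin k => C l := funext fun l => h l (by omega)
  rw [e1] at hg
  convert hg using 1
  funext i
  rw [h (k + i) (by omega)]

theorem gR_congr {H : ℝ → ℝ} {m q r k : ℕ} {d : ℕ × ℕ → ℝ} {ρ : (Fin k → Wc) → ℝ}
    {C C' : ℕ → Wc} (h : ∀ i < k + m, C' i = C i) (hg : gR H m q r k d ρ C') :
    gR H m q r k d ρ C := by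
  unfold gR at hg ⊢
  have e1 : (fun l : Fin k => C' l) = fun l : Fin k => C l := funext fun l => h l (by omega)
  rw [e1] at hg
  convert hg using 1
  funext i
  rw [h (k + (Fin.rev i : Fin m)) (by have := (Fin.rev i).2; omega)]

/-- the families -/
def faW (H : ℕ → ℝ → ℝ) (d : ℕ → ℕ × ℕ → ℝ) (q r : ℕ → ℕ) (ρ : ℕ → ∀ k, (Fin k → Wc) → ℝ)
    (s k m b : ℕ) (Z : ℕ → Wc) : Prop :=
  if b = 0 then gF (H s) m (q s) (r s) k (d s) (ρ s k) Z
  else gR (H s) m (q s) (r s) k (d s) (ρ s k) Z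

/-- the families, enumerated -/
def fW (H : ℕ → ℝ → ℝ) (d : ℕ → ℕ × ℕ → ℝ) (q r : ℕ → ℕ) (ρ : ℕ → ∀ k, (Fin k → Wc) → ℝ)
    (t : ℕ) (Z : ℕ → Wc) : Prop :=
  faW H d q r ρ (Nat.unpair (Nat.unpair t).1).1 (Nat.unpair (Nat.unpair t).1).2
    (Nat.unpair (Nat.unpair t).2).1 (Nat.unpair (Nat.unpair t).2).2 Z

theorem fW_pair (H : ℕ → ℝ → ℝ) (d : ℕ → ℕ × ℕ → ℝ) (q r : ℕ → ℕ)
    (ρ : ℕ → ∀ k, (Fin k → Wc) → ℝ) (s k m b : ℕ) (Z : ℕ → Wc)
    (h : fW H d q r ρ (Nat.pair (Nat.pair s k) (Nat.pair m b)) Z) : faW H d q r ρ s k m b Z := by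
  unfold fW at h
  rw [Nat.unpair_pair] at h
  simp only [] at h
  rw [Nat.unpair_pair, Nat.unpair_pair] at h
  exact h

/-- finite sequences of blocks extend -/
theorem extendB {F : ℕ → Finset ℕ} (t n : ℕ) (h1 : ∀ l < n, (F l).Nonempty)
    (h2 : ∀ l < n, ∀ i ∈ F l, t ≤ i) (h3 : ∀ l, l + 1 < n → ∀ i ∈ F l, ∀ i' ∈ F (l + 1), i < i') :
    ∃ G : ℕ → Finset ℕ, Blk G ∧ (∀ l, ∀ i ∈ G l, t ≤ i) ∧ ∀ l < n, G l = F l := by
  classical
  set M : ℕ := t + 1 + ∑ l ∈ Finset.range n, ∑ i ∈ F l, i with hM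
  have hM1 : ∀ l < n, ∀ i ∈ F l, i < M := by
    intro l hl i hi
    have a1 : i ≤ ∑ i ∈ F l, i :=
      Finset.single_le_sum (f := fun i => i) (fun _ _ => Nat.zero_le _) hi
    have a2 : ∑ i ∈ F l, i ≤ ∑ l ∈ Finset.range n, ∑ i ∈ F l, i :=
      Finset.single_le_sum (f := fun l => ∑ i ∈ F l, i) (fun _ _ => Nat.zero_le _)
        (Finset.mem_range.2 hl)
    omega
  refine ⟨fun l => if l < n then F l else {M + l}, ⟨fun i => ?_, fun i x hx y hy => ?_⟩,
    fun l i hi => ?_, fun l hl => ?_⟩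
  · beta_reduce
    split_ifs with h
    · exact h1 i h
    · exact Finset.singleton_nonempty _
  · beta_reduce at hx hy
    by_cases a : i + 1 < n
    · rw [if_pos (by omega)] at hx
      rw [if_pos a] at hy
      exact h3 i a x hx y hy
    · rw [if_neg a, Finset.mem_singleton] at hy
      by_cases b : i < n
      · rw [if_pos b] at hx
        have := hM1 i b x hx
        omega
      · rw [if_neg b, Finset.mem_singleton] at hx
        omega
  · beta_reduce at hi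
    split_ifs at hi with h
    · exact h2 l h i hi
    · rw [Finset.mem_singleton] at hi
      omega
  · beta_reduce
    rw [if_pos hl]

/-- places along which the null sequences are summable, the letters at the `a`-th place being `≤ a` -/
theorem sparseW (d : ℕ → ℕ → ℕ → ℝ) (hd : ∀ s a c, 0 < d s a c) :
    ∃ φ : ℕ → ℕ, StrictMono φ ∧ ∀ s, (∀ c, Tendsto (fun a => d s a c) atTop (𝓝 0)) →
      Summable (fun a => ∑ c ∈ Finset.range (a + 1), d s (φ a) c) := by
  classical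
  obtain ⟨φ, hφ, h⟩ := Filter.extraction_forall_of_eventually
    (P := fun n k => ∀ s ∈ Finset.range (n + 1), ∀ c ∈ Finset.range (n + 1),
      (∀ c, Tendsto (fun a => d s a c) atTop (𝓝 0)) → d s k c ≤ (1 / 2 : ℝ) ^ n / (n + 1)) (by
      intro n
      rw [Filter.eventually_all_finset]
      intro s _
      rw [Filter.eventually_all_finset]
      intro c _
      by_cases hs : ∀ c, Tendsto (fun a => d s a c) atTop (𝓝 0)
      · filter_upwards [(hs c).eventually (ge_mem_nhds (show (0 : ℝ) < (1 / 2 : ℝ) ^ n / (n + 1) by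
          positivity))] with k hk _ using hk
      · exact Eventually.of_forall fun k h => absurd h hs)
  refine ⟨φ, hφ, fun s hs => ?_⟩
  refine Summable.of_norm_bounded_eventually_nat (g := fun n => (1 / 2 : ℝ) ^ n)
    (summable_geometric_of_lt_one (by norm_num) (by norm_num)) ?_
  filter_upwards [eventually_ge_atTop s] with n hn
  rw [Real.norm_eq_abs, abs_of_pos (Finset.sum_pos (fun c _ => hd s _ c) ⟨0, by simp⟩)]
  calc ∑ c ∈ Finset.range (n + 1), d s (φ n) c ≤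
      ∑ _c ∈ Finset.range (n + 1), (1 / 2 : ℝ) ^ n / (n + 1) :=
        Finset.sum_le_sum fun c hc => h n s (Finset.mem_range.2 (by omega)) c hc hs
    _ = (1 / 2 : ℝ) ^ n := by
        rw [Finset.sum_const, Finset.card_range, nsmul_eq_mul]
        push_cast
        field_simp

/-- **Record gaps attached to located words.** -/
theorem main_recW (h : ℕ → ℕ) (H : ℕ → ℝ → ℝ) (hH : ∀ s, Scale (H s)) (d : ℕ → ℕ → ℕ → ℝ)
    (hd : ∀ s a c, 0 < d s a c)
    (hc : ∀ s, (∀ c : ℝ, 0 < c → ∀ᶠ x : ℝ in atTop, H s x ≤ c * ff x) ∨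
      ((∃ C : ℝ, ∀ᶠ x : ℝ in atTop, H s x ≤ C * ff x) ∧
        ∀ c, Tendsto (fun a => d s a c) atTop (𝓝 0)))
    (q r : ℕ → ℕ) (hq : ∀ s, Squarefree (q s)) (hr : ∀ s, (r s).Coprime (q s))
    (ρ : ℕ → ∀ k, (Fin k → Wc) → ℝ) (hρ : ∀ s k P, 0 < ρ s k P) :
    ∃ (U V : ℕ → Finset ℕ) (κ : ℕ → ℕ), (∀ i, (V i).Nonempty ∧ Disjoint (U i) (V i)) ∧
      (∀ i, ∀ a ∈ U i ∪ V i, ∀ b ∈ U (i + 1) ∪ V (i + 1), a < b) ∧
      ∀ s k m : ℕ, ∃ N : ℕ, ∀ (F : ℕ → Finset ℕ) (c : ℕ → ℕ), (∀ i, c i ≤ h i) →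
        (∀ l < k + m, (F l).Nonempty) → (∀ l < k + m, ∀ i ∈ F l, N ≤ i) →
        (∀ l, l + 1 < k + m → ∀ i ∈ F l, ∀ i' ∈ F (l + 1), i < i') →
        (fun i : Fin m => ρ s k (fun l => (F l).biUnion fun i' => wd U V κ i' (c i')) *
          ∑ i' ∈ F (k + i), (∑ a ∈ U i', d s a (κ a) + ∑ a ∈ V i', d s a (c i'))) ∈
            LimH (H s) m (q s) (r s) ∧
        (fun i : Fin m => ρ s k (fun l => (F l).biUnion fun i' => wd U V κ i' (c i')) *
          ∑ i' ∈ F (k + (Fin.rev i : Fin m)), (∑ a ∈ U i', d s a (κ a) +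
            ∑ a ∈ V i', d s a (c i'))) ∈ LimH (H s) m (q s) (r s) := by
  classical
  obtain ⟨φ, hφ, hsum⟩ := sparseW d hd
  obtain ⟨ψ, hψ⟩ : ∃ ψ : ℕ × ℕ → ℕ × ℕ, ψ = fun t => (φ t.1, min t.2 t.1) := ⟨_, rfl⟩
  have hψ' : ∀ a c, ψ (a, c) = (φ a, min c a) := fun a c => by rw [hψ]
  obtain ⟨D, hD⟩ : ∃ D : ℕ → ℕ × ℕ → ℝ, D = fun s t => d s (φ t.1) (min t.2 t.1) := ⟨_, rfl⟩
  have hD' : ∀ s t, D s t = d s (φ t.1) (min t.2 t.1) := fun s t => by rw [hD]
  have hDpos : ∀ s t, 0 < D s t := fun s t => by rw [hD']; exact hd _ _ _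
  have hA : ∀ s, AdmW (H s) (D s) := by
    intro s
    rcases hc s with h | ⟨h, h'⟩
    · exact Or.inl h
    · refine Or.inr ⟨h, _, hsum s h', fun a => Finset.sum_nonneg fun c _ => (hd _ _ _).le,
        fun t => ?_⟩
      rw [hD']
      exact Finset.single_le_sum (f := fun c => d s (φ t.1) c) (fun c _ => (hd _ _ _).le)
        (Finset.mem_range.2 (by omega))
  obtain ⟨ρ', hρ'⟩ : ∃ ρ' : ℕ → ∀ k, (Fin k → Wc) → ℝ,
      ρ' = fun s k P => ρ s k (fun l => (P l).image ψ) := ⟨_, rfl⟩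
  have hρpos : ∀ s k P, 0 < ρ' s k P := fun s k P => by rw [hρ']; exact hρ _ _ _
  -- the numbers of the blocks used
  obtain ⟨ν, hν⟩ : ∃ ν : ℕ → ℕ, ν = fun i => i + ∑ i' ∈ Finset.range (i + 1), h i' := ⟨_, rfl⟩
  have hνs : StrictMono ν := by
    refine strictMono_nat_of_lt_succ fun i => ?_
    rw [hν]
    beta_reduce
    rw [Finset.sum_range_succ (fun i' => h i') (i + 1)]
    omega
  have hνi : ∀ i, i ≤ ν i := hνs.id_le
  have hνh : ∀ i, h i ≤ ν i := by
    intro i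
    rw [hν]
    beta_reduce
    have h1 : h i ≤ ∑ i' ∈ Finset.range (i + 1), h i' :=
      Finset.single_le_sum (f := fun i' => h i') (fun _ _ => Nat.zero_le _)
        (Finset.mem_range.2 (Nat.lt_succ_self i))
    omega
  obtain ⟨U, V, κ, hUV, hlt, hBW, hP⟩ := closed_wd
    (fun n => ∑ i' ∈ Finset.range (n + 1), h i') (fW H D q r ρ') (by
      intro t Z _ hg
      refine ⟨(Nat.unpair (Nat.unpair t).1).2 + (Nat.unpair (Nat.unpair t).2).1,
        fun Z' _ h hg' => hg ?_⟩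
      unfold fW faW at hg' ⊢
      split_ifs at hg' ⊢ with hb
      · exact gF_congr h hg'
      · exact gR_congr h hg') (by
      intro t X hX
      unfold fW faW
      split_ifs with hb
      · exact exFW (hH _) _ (hq _) (hr _) _ (hDpos _) (hA _) _ (fun P => hρpos _ _ P) X hX
      · exact exRW (hH _) _ (hq _) (hr _) _ (hDpos _) (hA _) _ (fun P => hρpos _ _ P) X hX)
  -- places of the blocks
  have hplace : ∀ i, ∀ a ∈ U i ∪ V i, i ≤ a := by
    intro i
    induction i with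
    | zero => exact fun a _ => Nat.zero_le a
    | succ i ih =>
      intro a ha
      obtain ⟨b, hb⟩ := (hUV i).1
      have h1 := ih b (Finset.mem_union_right _ hb)
      have h2 := hlt i b (Finset.mem_union_right _ hb) a ha
      omega
  have hltm : ∀ i j, i < j → ∀ a ∈ U i ∪ V i, ∀ b ∈ U j ∪ V j, a < b := by
    intro i j hij
    induction j, hij using Nat.le_induction with
    | base => exact hlt i
    | succ m hm ih =>
      intro a ha b hb
      obtain ⟨b', hb'⟩ := (hUV m).1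
      exact (ih a ha b' (Finset.mem_union_right _ hb')).trans
        (hlt m b' (Finset.mem_union_right _ hb') b hb)
  obtain ⟨U', hU'⟩ : ∃ U' : ℕ → Finset ℕ, U' = fun i => (U (ν i)).image φ := ⟨_, rfl⟩
  obtain ⟨V', hV'⟩ : ∃ V' : ℕ → Finset ℕ, V' = fun i => (V (ν i)).image φ := ⟨_, rfl⟩
  obtain ⟨κ', hκ'⟩ : ∃ κ' : ℕ → ℕ, κ' = Function.extend φ (fun a => min (κ a) a) 0 := ⟨_, rfl⟩
  have hκφ : ∀ a, κ' (φ a) = min (κ a) a := by
    intro a
    rw [hκ']
    exact hφ.injective.extend_apply _ _ a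
  -- words
  have hword : ∀ i c, c ≤ h i → (wd U V κ (ν i) c).image ψ = wd U' V' κ' i c := by
    intro i c hci
    unfold wd
    rw [Finset.image_union, Finset.image_image, Finset.image_image, hU', hV']
    beta_reduce
    rw [Finset.image_image, Finset.image_image]
    congr 1
    · refine Finset.image_congr fun a _ => ?_
      simp only [Function.comp]
      rw [hψ', hκφ]
    · refine Finset.image_congr fun a ha => ?_
      simp only [Function.comp]
      rw [hψ']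
      have h1 := hplace (ν i) a (Finset.mem_union_right _ ha)
      have h2 := hνh i
      rw [min_eq_left (by omega)]
  have hbU : ∀ (F : Finset ℕ) (c : ℕ → ℕ) (c' : ℕ → ℕ), (∀ i ∈ F, c' (ν i) = c i) →
      (∀ i, c i ≤ h i) →
      (((F.image ν).biUnion fun n => wd U V κ n (c' n))).image ψ =
        F.biUnion fun i => wd U' V' κ' i (c i) := by
    intro F c c' hcc hch
    rw [Finset.biUnion_image, Finset.image_biUnion]
    refine Finset.biUnion_congr rfl fun i hi => ?_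
    rw [hcc i hi, hword i _ (hch i)]
  have hwt : ∀ s i c, c ≤ h i → wr (D s) (wd U V κ (ν i) c) =
      ∑ a ∈ U' i, d s a (κ' a) + ∑ a ∈ V' i, d s a c := by
    intro s i c hci
    unfold wr
    rw [sum_wd (hUV (ν i)).2 c (D s), hU', hV']
    beta_reduce
    rw [Finset.sum_image (fun a _ b _ hab => hφ.injective hab),
      Finset.sum_image (fun a _ b _ hab => hφ.injective hab)]
    congr 1
    · refine Finset.sum_congr rfl fun a _ => ?_
      rw [hD', hκφ]
    · refine Finset.sum_congr rfl fun a ha => ?_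
      rw [hD']
      have h1 := hplace (ν i) a (Finset.mem_union_right _ ha)
      have h2 := hνh i
      rw [min_eq_left (by omega)]
  refine ⟨U', V', κ', fun i => ?_, fun i a ha b hb => ?_, fun s k m => ?_⟩
  · rw [hU', hV']
    refine ⟨(hUV (ν i)).1.image _, ?_⟩
    exact (Finset.disjoint_image hφ.injective).2 (hUV (ν i)).2
  · rw [hU', hV'] at ha hb
    beta_reduce at ha hb
    rw [← Finset.image_union] at ha hb
    obtain ⟨a', ha', rfl⟩ := Finset.mem_image.1 ha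
    obtain ⟨b', hb', rfl⟩ := Finset.mem_image.1 hb
    exact hφ (hltm _ _ (hνs (Nat.lt_succ_self i)) a' ha' b' hb')
  · set c0 := Nat.pair (Nat.pair s k) (Nat.pair m 0) with hc0
    set c1 := Nat.pair (Nat.pair s k) (Nat.pair m 1) with hc1
    refine ⟨max c0 c1, fun F c hch h1 h2 h3 => ?_⟩
    obtain ⟨G, hG1, hG2, hG3⟩ := extendB (F := F) (max c0 c1) (k + m) h1 h2 h3
    -- the letters
    obtain ⟨c', hc'⟩ : ∃ c' : ℕ → ℕ, c' = Function.extend ν c 0 := ⟨_, rfl⟩
    have hcν : ∀ i, c' (ν i) = c i := by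
      intro i
      rw [hc']
      exact hνs.injective.extend_apply _ _ i
    have hc'h : ∀ n, c' n ≤ ∑ i' ∈ Finset.range (n + 1), h i' := by
      intro n
      by_cases hn : ∃ i, ν i = n
      · obtain ⟨i, rfl⟩ := hn
        rw [hcν]
        refine (hch i).trans ?_
        exact Finset.single_le_sum (f := fun i' => h i') (fun _ _ => Nat.zero_le _)
          (Finset.mem_range.2 (Nat.lt_succ_of_le (hνi i)))
      · rw [hc', Function.extend_apply' _ _ _ hn]
        exact Nat.zero_le _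
    set C : ℕ → Finset ℕ := fun l => (G l).image ν with hC
    have hCB : Blk C := by
      refine ⟨fun l => (hG1.1 l).image _, fun l a ha b hb => ?_⟩
      obtain ⟨a', ha', rfl⟩ := Finset.mem_image.1 ha
      obtain ⟨b', hb', rfl⟩ := Finset.mem_image.1 hb
      exact hνs (hG1.2 l a' ha' b' hb')
    have hCge : ∀ l, ∀ n ∈ C l, max c0 c1 ≤ n := by
      intro l n hn
      obtain ⟨i, hi, rfl⟩ := Finset.mem_image.1 hn
      exact (hG2 l i hi).trans (hνi i)
    have hX := hBW c'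
    have hsums : ∀ l < k + m, wr (D s) ((C l).biUnion fun n => wd U V κ n (c' n)) =
        ∑ i' ∈ F l, (∑ a ∈ U' i', d s a (κ' a) + ∑ a ∈ V' i', d s a (c i')) := by
      intro l hl
      rw [wr_biUnion (D s) hX, hC]
      beta_reduce
      rw [Finset.sum_image (fun a _ b _ hab => hνs.injective hab), hG3 l hl]
      refine Finset.sum_congr rfl fun i _ => ?_
      rw [hcν, hwt s i _ (hch i)]
    have hrho : ρ' s k (fun l => (C l).biUnion fun n => wd U V κ n (c' n)) =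
        ρ s k (fun l => (F l).biUnion fun i' => wd U' V' κ' i' (c i')) := by
      rw [hρ']
      beta_reduce
      congr 1
      funext l
      rw [hC]
      beta_reduce
      rw [hG3 l (by omega)]
      exact hbU _ _ _ (fun i _ => hcν i) hch
    constructor
    · have h4 := fW_pair _ _ _ _ _ s k m 0 _ (hP c0 C c' hCB
        (fun i hi => (le_max_left _ _).trans (hCge 0 i hi)) hc'h)
      unfold faW at h4
      rw [if_pos rfl] at h4
      unfold gF at h4
      convert h4 using 1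
      funext i
      rw [← hsums (k + i) (by omega), ← hrho]
    · have h4 := fW_pair _ _ _ _ _ s k m 1 _ (hP c1 C c' hCB
        (fun i hi => (le_max_right _ _).trans (hCge 0 i hi)) hc'h)
      unfold faW at h4
      rw [if_neg one_ne_zero] at h4
      unfold gR at h4
      convert h4 using 1
      funext i
      rw [← hsums (k + (Fin.rev i : Fin m)) (by have := (Fin.rev i).2; omega), ← hrho]

end Pool.Agent.J6H10.LW
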