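import Pool.Agent.J6H10.LW.Fus

/-!
# Located words: the Ramsey theorem for closed families of block sequences
-/

set_option autoImplicit false

namespace Pool.Agent.J6H10.LW

open Filter Topology Pool.Agent.H752R3.MT

attribute [local instance] finSemigroup Ultrafilter.mul Ultrafilter.semigroup

/-- block sequences of words -/
def BW {β : Type} (Z : ℕ → Finset (ℕ × β)) : Prop :=
  (∀ i, (Z i).Nonempty ∧ Fn (Z i)) ∧ ∀ i, ∀ t ∈ Z i, ∀ t' ∈ Z (i + 1), t.1 < t'.1

theorem BW.lt {β : Type} {Z : ℕ → Finset (ℕ × β)} (hZ : BW Z) {i j : ℕ} (hij : i < j) :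
    ∀ t ∈ Z i, ∀ t' ∈ Z j, t.1 < t'.1 := by
  induction j, hij using Nat.le_induction with
  | base => exact hZ.2 i
  | succ m hm ih =>
    intro t ht t' ht'
    obtain ⟨s, hs⟩ := (hZ.1 m).1
    exact (ih t ht s hs).trans (hZ.2 m s hs t' ht')

theorem BW.fn_union {β : Type} [DecidableEq β] {Z : ℕ → Finset (ℕ × β)} (hZ : BW Z)
    (F : Finset ℕ) : Fn (F.biUnion Z) := by
  intro t ht t' ht' htt
  obtain ⟨i, hi, hti⟩ := Finset.mem_biUnion.1 ht
  obtain ⟨j, hj, htj⟩ := Finset.mem_biUnion.1 ht'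
  rcases lt_trichotomy i j with h | h | h
  · have := hZ.lt h t hti t' htj
    omega
  · subst h
    exact (hZ.1 i).2 t hti t' htj htt
  · have := hZ.lt h t' htj t hti
    omega

theorem BW.comp {β : Type} [DecidableEq β] {Z : ℕ → Finset (ℕ × β)} (hZ : BW Z)
    {C : ℕ → Finset ℕ} (hC : Blk C) : BW (fun l => (C l).biUnion Z) := by
  refine ⟨fun l => ⟨?_, hZ.fn_union _⟩, fun l t ht t' ht' => ?_⟩
  · obtain ⟨i, hi⟩ := hC.1 l
    obtain ⟨t, ht⟩ := (hZ.1 i).1
    exact ⟨t, Finset.mem_biUnion.2 ⟨i, hi, ht⟩⟩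
  · obtain ⟨i, hi, hti⟩ := Finset.mem_biUnion.1 ht
    obtain ⟨j, hj, htj⟩ := Finset.mem_biUnion.1 ht'
    exact hZ.lt (hC.2 l i hi j hj) t hti t' htj

/-- block sequences of variable words -/
def VW (W : ℕ → Wv) : Prop :=
  (∀ i, Var (W i) ∧ Fn (W i)) ∧ ∀ i, ∀ t ∈ W i, ∀ t' ∈ W (i + 1), t.1 < t'.1

theorem VW.sb {W : ℕ → Wv} (hW : VW W) (c : ℕ → ℕ) : BW (fun i => sb (c i) (W i)) := by
  refine ⟨fun i => ⟨?_, (hW.1 i).2.sb _⟩, fun i t ht t' ht' => ?_⟩
  · obtain ⟨k, hk⟩ := (hW.1 i).1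
    exact ⟨_, Finset.mem_image_of_mem _ hk⟩
  · obtain ⟨s, hs, rfl⟩ := Finset.mem_image.1 ht
    obtain ⟨s', hs', rfl⟩ := Finset.mem_image.1 ht'
    exact hW.2 i s hs s' hs'

/-- the first `n` blocks -/
def pre (Y : ℕ → Wc) (n : ℕ) : List Wc := (List.range n).map Y

theorem pre_length (Y : ℕ → Wc) (n : ℕ) : (pre Y n).length = n := by
  unfold pre; simp

theorem pre_succ (Y : ℕ → Wc) (n : ℕ) : pre Y (n + 1) = pre Y n ++ [Y n] := by
  unfold pre; simp [List.range_succ]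

theorem pre_take (Y : ℕ → Wc) {m n : ℕ} (h : m ≤ n) : (pre Y n).take m = pre Y m := by
  unfold pre
  rw [← List.map_take]
  congr 1
  rw [List.take_range]
  congr 1
  omega

theorem pre_congr {Y Z : ℕ → Wc} {n : ℕ} (h : pre Z n = pre Y n) : ∀ i < n, Z i = Y i := by
  intro i hi
  have h1 : (pre Z n)[i]? = (pre Y n)[i]? := by rw [h]
  unfold pre at h1
  simpa [hi] using h1

/-- every block sequence which starts with `s` is outside the family -/
def Bad (P : (ℕ → Wc) → Prop) (s : List Wc) : Prop := ∀ Z, BW Z → pre Z s.length = s → ¬ P Z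

/-- some strategy leads from `s` to `Bad` -/
def Doom (q : Ultrafilter Wc) (P : (ℕ → Wc) → Prop) (s : List Wc) : Prop :=
  ∃ 𝔸 : List Wc → Set Wc, (∀ t, 𝔸 t ∈ q) ∧ ∀ Y : ℕ → Wc, BW Y → pre Y s.length = s →
    (∀ i, s.length ≤ i → Y i ∈ 𝔸 (pre Y i)) → ∃ i, Bad P (pre Y i)

theorem doom_of_bad (q : Ultrafilter Wc) {P : (ℕ → Wc) → Prop} {s : List Wc} (h : Bad P s) :
    Doom q P s :=
  ⟨fun _ => Set.univ, fun _ => univ_mem, fun Y _ hY _ => ⟨s.length, by rw [hY]; exact h⟩⟩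

open Classical in
theorem doom_step (q : Ultrafilter Wc) {P : (ℕ → Wc) → Prop} {s : List Wc}
    (h : {x | Doom q P (s ++ [x])} ∈ q) : Doom q P s := by
  -- strategies
  obtain ⟨S, hS⟩ : ∃ S : List Wc → List Wc → Set Wc, (∀ u t, S u t ∈ q) ∧ ∀ u, Doom q P u →
      ∀ Y : ℕ → Wc, BW Y → pre Y u.length = u →
        (∀ i, u.length ≤ i → Y i ∈ S u (pre Y i)) → ∃ i, Bad P (pre Y i) := by
    refine ⟨fun u => if hu : Doom q P u then hu.choose else fun _ => Set.univ, fun u t => ?_,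
      fun u hu => ?_⟩
    · beta_reduce
      split_ifs with hu
      · exact hu.choose_spec.1 t
      · exact univ_mem
    · beta_reduce
      rw [dif_pos hu]
      exact hu.choose_spec.2
  refine ⟨fun t => if t.length = s.length then {x | Doom q P (s ++ [x])} else
    S (t.take (s.length + 1)) t, fun t => ?_, fun Y hY hs hr => ?_⟩
  · beta_reduce
    split_ifs
    · exact h
    · exact hS.1 _ _
  · beta_reduce at hr
    have h1 := hr s.length le_rfl
    rw [if_pos (by rw [pre_length])] at h1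
    have h1' : Doom q P (s ++ [Y s.length]) := h1
    have h2 : s ++ [Y s.length] = pre Y (s.length + 1) := by rw [pre_succ, hs]
    rw [h2] at h1'
    refine hS.2 _ h1' Y hY (by rw [pre_length]) fun i hi => ?_
    rw [pre_length] at hi
    have h3 := hr i (by omega)
    rw [if_neg (by rw [pre_length]; omega), pre_take Y hi] at h3
    exact h3

/-- **The Ramsey theorem for closed families.** -/
theorem closed_words (h : ℕ → ℕ) (P : ℕ → (ℕ → Wc) → Prop)
    (hcl : ∀ j Z, BW Z → ¬ P j Z → ∃ m, ∀ Z', BW Z' → (∀ i < m, Z' i = Z i) → ¬ P j Z')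
    (hex : ∀ j X, BW X → ∃ C : ℕ → Finset ℕ, Blk C ∧ P j (fun l => (C l).biUnion X)) :
    ∃ W : ℕ → Wv, VW W ∧ ∀ (j : ℕ) (C : ℕ → Finset ℕ) (c : ℕ → ℕ), Blk C → (∀ i ∈ C 0, j ≤ i) →
      (∀ i, c i ≤ h i) → P j (fun l => (C l).biUnion fun i => sb (c i) (W i)) := by
  classical
  obtain ⟨p, q, hp, -, hV, hpq, hq⟩ := exists_pq
  have hnd : ∀ j, ¬ Doom q (P j) [] := by
    intro j hd
    obtain ⟨𝔸, hA, hD⟩ := hd
    obtain ⟨W, hW1, hW2, hW3⟩ := fusion h hp hV hpq hq (fun _ => 𝔸) (fun _ => hA)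
    have hW : VW W := ⟨hW1, hW2⟩
    obtain ⟨C, hC, hP⟩ := hex j _ (hW.sb fun _ => 0)
    have hY := (hW.sb fun _ => 0).comp hC
    obtain ⟨i, hi⟩ := hD _ hY rfl (fun i _ => hW3 0 C (fun _ => 0) hC (fun i _ => Nat.zero_le i)
      (fun i => Nat.zero_le _) i)
    exact hi _ hY (by rw [pre_length]) hP
  obtain ⟨W, hW1, hW2, hW3⟩ := fusion h hp hV hpq hq
    (fun j s => if Doom q (P j) s then Set.univ else {x | ¬ Doom q (P j) (s ++ [x])})
    (fun j s => by
      beta_reduce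
      split_ifs with hs
      · exact univ_mem
      · by_contra hcon
        rw [← Ultrafilter.compl_mem_iff_notMem] at hcon
        exact hs (doom_step q (mem_of_superset hcon fun x hx => not_not.1 hx)))
  have hW : VW W := ⟨hW1, hW2⟩
  refine ⟨W, hW, fun j C c hC hj hc => ?_⟩
  set Y : ℕ → Wc := fun l => (C l).biUnion fun i => sb (c i) (W i) with hYdef
  have hY : BW Y := (hW.sb c).comp hC
  have hgood : ∀ l, ¬ Doom q (P j) (pre Y l) := by
    intro l
    induction l with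
    | zero => exact hnd j
    | succ l ih =>
      have h1 : Y l ∈ (if Doom q (P j) (pre Y l) then Set.univ else
          {x | ¬ Doom q (P j) (pre Y l ++ [x])} : Set Wc) := hW3 j C c hC hj hc l
      rw [if_neg ih] at h1
      rw [pre_succ]
      exact h1
  by_contra hcon
  obtain ⟨m, hm⟩ := hcl j Y hY hcon
  refine hgood m (doom_of_bad q ?_)
  intro Z hZ hZY
  rw [pre_length] at hZY
  exact hm Z hZ (pre_congr hZY)

end Pool.Agent.J6H10.LW
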