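import Pool.Agent.J6H10.LW.Closed

/-!
# Located words: variable words as two finite sets and a function
-/

set_option autoImplicit false

namespace Pool.Agent.J6H10.LW

open Pool.Agent.H752R3.MT

/-- the word of the `i`-th block with the letter `c` -/
def wd (U V : ℕ → Finset ℕ) (κ : ℕ → ℕ) (i c : ℕ) : Wc :=
  (U i).image (fun a => (a, κ a)) ∪ (V i).image (fun a => (a, c))

theorem conv {W : ℕ → Wv} (hW : VW W) : ∃ (U V : ℕ → Finset ℕ) (κ : ℕ → ℕ),
    (∀ i, (V i).Nonempty ∧ Disjoint (U i) (V i)) ∧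
    (∀ i, ∀ a ∈ U i ∪ V i, ∀ b ∈ U (i + 1) ∪ V (i + 1), a < b) ∧
    ∀ i c, sb c (W i) = wd U V κ i c := by
  classical
  have hlt : ∀ {i j : ℕ}, i < j → ∀ t ∈ W i, ∀ t' ∈ W j, t.1 < t'.1 := by
    intro i j hij
    induction j, hij using Nat.le_induction with
    | base => exact hW.2 i
    | succ m hm ih =>
      intro t ht t' ht'
      obtain ⟨k, hk⟩ := (hW.1 m).1
      exact (ih t ht _ hk).trans (hW.2 m _ hk t' ht')
  have huniq : ∀ a b b' i i', (a, some b) ∈ W i → (a, some b') ∈ W i' → b = b' := by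
    intro a b b' i i' h h'
    rcases lt_trichotomy i i' with h1 | h1 | h1
    · have := hlt h1 _ h _ h'
      simp at this
    · subst h1
      have := (hW.1 i).2 _ h _ h' rfl
      simpa using this
    · have := hlt h1 _ h' _ h
      simp at this
  let U : ℕ → Finset ℕ := fun i => ((W i).filter fun t => t.2 ≠ none).image Prod.fst
  let V : ℕ → Finset ℕ := fun i => ((W i).filter fun t => t.2 = none).image Prod.fst
  let κ : ℕ → ℕ := fun a => if h : ∃ b i, (a, some b) ∈ W i then h.choose else 0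
  have hκ : ∀ a b i, (a, some b) ∈ W i → κ a = b := by
    intro a b i h
    have h1 : ∃ b i, (a, some b) ∈ W i := ⟨b, i, h⟩
    show (if h : ∃ b i, (a, some b) ∈ W i then h.choose else 0) = b
    rw [dif_pos h1]
    obtain ⟨i', hi'⟩ := h1.choose_spec
    exact huniq a _ b i' i hi' h
  have hUV : ∀ i, ∀ a ∈ U i ∪ V i, ∃ o, (a, o) ∈ W i := by
    intro i a ha
    rcases Finset.mem_union.1 ha with h | h <;>
    · obtain ⟨t, ht, rfl⟩ := Finset.mem_image.1 h
      exact ⟨t.2, (Finset.mem_filter.1 ht).1⟩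
  refine ⟨U, V, κ, fun i => ⟨?_, ?_⟩, fun i a ha b hb => ?_, fun i c => ?_⟩
  · obtain ⟨k, hk⟩ := (hW.1 i).1
    exact ⟨k, Finset.mem_image.2 ⟨_, Finset.mem_filter.2 ⟨hk, rfl⟩, rfl⟩⟩
  · rw [Finset.disjoint_left]
    intro a ha hb
    obtain ⟨t, ht, hta⟩ := Finset.mem_image.1 ha
    obtain ⟨t', ht', hta'⟩ := Finset.mem_image.1 hb
    have h1 := (hW.1 i).2 t (Finset.mem_filter.1 ht).1 t' (Finset.mem_filter.1 ht').1
      (hta.trans hta'.symm)
    rw [h1] at ht
    exact (Finset.mem_filter.1 ht).2 (Finset.mem_filter.1 ht').2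
  · obtain ⟨o, ho⟩ := hUV i a ha
    obtain ⟨o', ho'⟩ := hUV (i + 1) b hb
    exact hW.2 i _ ho _ ho'
  · ext ⟨a, b⟩
    unfold sb wd
    rw [Finset.mem_image, Finset.mem_union, Finset.mem_image, Finset.mem_image]
    constructor
    · rintro ⟨⟨a', o⟩, ht, he⟩
      rcases o with _ | b'
      · simp only [Option.getD_none, Prod.mk.injEq] at he
        obtain ⟨rfl, rfl⟩ := he
        exact Or.inr ⟨a', Finset.mem_image.2 ⟨_, Finset.mem_filter.2 ⟨ht, rfl⟩, rfl⟩, rfl⟩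
      · simp only [Option.getD_some, Prod.mk.injEq] at he
        obtain ⟨rfl, rfl⟩ := he
        exact Or.inl ⟨a', Finset.mem_image.2 ⟨_, Finset.mem_filter.2 ⟨ht, by simp⟩, rfl⟩, by
          rw [hκ a' b' i ht]⟩
    · rintro (⟨a', ha', he⟩ | ⟨a', ha', he⟩)
      · simp only [Prod.mk.injEq] at he
        obtain ⟨rfl, rfl⟩ := he
        obtain ⟨⟨a'', o⟩, ht, rfl⟩ := Finset.mem_image.1 ha'
        obtain ⟨ht1, ht2⟩ := Finset.mem_filter.1 ht
        rcases o with _ | b'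
        · exact absurd rfl ht2
        · refine ⟨(a'', some b'), ht1, ?_⟩
          simp only [Option.getD_some]
          rw [hκ a'' b' i ht1]
      · simp only [Prod.mk.injEq] at he
        obtain ⟨rfl, rfl⟩ := he
        obtain ⟨⟨a'', o⟩, ht, rfl⟩ := Finset.mem_image.1 ha'
        obtain ⟨ht1, ht2⟩ := Finset.mem_filter.1 ht
        simp only at ht2
        subst ht2
        exact ⟨(a'', none), ht1, rfl⟩

theorem sum_wd {U V : ℕ → Finset ℕ} {κ : ℕ → ℕ} {i : ℕ} (h : Disjoint (U i) (V i)) (c : ℕ)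
    {M : Type*} [AddCommMonoid M] (d : ℕ × ℕ → M) :
    ∑ t ∈ wd U V κ i c, d t = ∑ a ∈ U i, d (a, κ a) + ∑ a ∈ V i, d (a, c) := by
  classical
  unfold wd
  rw [Finset.sum_union, Finset.sum_image, Finset.sum_image]
  · intro a _ b _ hab
    exact (Prod.ext_iff.1 hab).1
  · intro a _ b _ hab
    exact (Prod.ext_iff.1 hab).1
  · rw [Finset.disjoint_left]
    intro t ht ht'
    obtain ⟨a, ha, rfl⟩ := Finset.mem_image.1 ht
    obtain ⟨b, hb, hb'⟩ := Finset.mem_image.1 ht'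
    have : b = a := (Prod.ext_iff.1 hb').1
    subst this
    exact Finset.disjoint_left.1 h ha hb

/-- the Ramsey theorem for closed families, with the variable words as pairs of sets -/
theorem closed_wd (h : ℕ → ℕ) (P : ℕ → (ℕ → Wc) → Prop)
    (hcl : ∀ j Z, BW Z → ¬ P j Z → ∃ m, ∀ Z', BW Z' → (∀ i < m, Z' i = Z i) → ¬ P j Z')
    (hex : ∀ j X, BW X → ∃ C : ℕ → Finset ℕ, Blk C ∧ P j (fun l => (C l).biUnion X)) :
    ∃ (U V : ℕ → Finset ℕ) (κ : ℕ → ℕ), (∀ i, (V i).Nonempty ∧ Disjoint (U i) (V i)) ∧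
      (∀ i, ∀ a ∈ U i ∪ V i, ∀ b ∈ U (i + 1) ∪ V (i + 1), a < b) ∧
      (∀ c : ℕ → ℕ, BW fun i => wd U V κ i (c i)) ∧
      ∀ (j : ℕ) (C : ℕ → Finset ℕ) (c : ℕ → ℕ), Blk C → (∀ i ∈ C 0, j ≤ i) → (∀ i, c i ≤ h i) →
        P j (fun l => (C l).biUnion fun i => wd U V κ i (c i)) := by
  obtain ⟨W, hW, hP⟩ := closed_words h P hcl hex
  obtain ⟨U, V, κ, h1, h2, h3⟩ := conv hW
  refine ⟨U, V, κ, h1, h2, fun c => ?_, fun j C c hC hj hc => ?_⟩
  · have := hW.sb c
    simpa only [h3] using this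
  · have := hP j C c hC hj hc
    simpa only [h3] using this

end Pool.Agent.J6H10.LW
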