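import Pool.Agent.J6H10.LW.Ult
import Pool.Agent.H752R3.MT

/-!
# Located words: the fusion of variable words
-/

set_option autoImplicit false

namespace Pool.Agent.J6H10.LW

open Filter Topology Pool.Agent.H752R3.MT

attribute [local instance] finSemigroup Ultrafilter.mul Ultrafilter.semigroup

/-- the elements which can be continued inside `Q` -/
def star (q : Ultrafilter Wc) (Q : Set Wc) : Set Wc := {x | x ∈ Q ∧ {y | x ∪ y ∈ Q} ∈ q}

theorem star_sub (q : Ultrafilter Wc) (Q : Set Wc) : star q Q ⊆ Q := fun _ h => h.1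

theorem star_mono (q : Ultrafilter Wc) {Q Q' : Set Wc} (h : Q ⊆ Q') : star q Q ⊆ star q Q' :=
  fun _ hx => ⟨h hx.1, mem_of_superset hx.2 fun _ hy => h hy⟩

theorem star_mem {q : Ultrafilter Wc} (hq : q * q = q) {Q : Set Wc} (hQ : Q ∈ q) :
    star q Q ∈ q := by
  have h1 : Q ∈ q * q := by rw [hq]; exact hQ
  rw [mem_mul] at h1
  exact inter_mem hQ h1

theorem star_star {q : Ultrafilter Wc} (hq : q * q = q) {Q : Set Wc} {x : Wc}
    (hx : x ∈ star q Q) : {y | x ∪ y ∈ star q Q} ∈ q := by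
  have h1 := star_mem hq hx.2
  refine mem_of_superset h1 fun y hy => ?_
  refine ⟨hy.1, ?_⟩
  have h2 := hy.2
  refine mem_of_superset h2 fun z hz => ?_
  have h3 : x ∪ (y ∪ z) ∈ Q := hz
  show x ∪ y ∪ z ∈ Q
  rw [Finset.union_assoc]
  exact h3

theorem pick {p : Ultrafilter Wv} {q : Ultrafilter Wc} (hp : Ok p) (hV : {w | Var w} ∈ p)
    (hpq : ∀ a, p.map (sb a) = q) (n h : ℕ) {Q : Set Wc} (hQ : Q ∈ q) :
    ∃ W : Wv, Var W ∧ Fn W ∧ Bd n W ∧ ∀ a ≤ h, sb a W ∈ Q := by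
  have h1 : (⋂ a ∈ Set.Iic h, (sb a) ⁻¹' Q) ∈ p := by
    rw [← Ultrafilter.mem_coe, Filter.biInter_mem (Set.finite_Iic h)]
    intro a _
    have : Q ∈ p.map (sb a) := by rw [hpq a]; exact hQ
    exact this
  obtain ⟨W, ⟨⟨hW1, hW2⟩, hW3⟩, hW4⟩ := Ultrafilter.nonempty_of_mem
    (inter_mem (inter_mem (inter_mem hV hp.2) (hp.1 n)) h1)
  refine ⟨W, hW1, hW2, hW3, fun a ha => ?_⟩
  have := Set.mem_iInter₂.1 hW4 a ha
  exact this

theorem fin_states (n : ℕ) (B : Wc) : {s : List Wc | s.length ≤ n ∧ ∀ y ∈ s, y ⊆ B}.Finite := by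
  have h1 := (List.finite_length_le {y : Wc // y ∈ B.powerset} n).image (List.map Subtype.val)
  refine h1.subset ?_
  rintro s ⟨hs1, hs2⟩
  refine ⟨s.attach.map fun y => ⟨y.1, Finset.mem_powerset.2 (hs2 y.1 y.2)⟩, ?_, ?_⟩
  · simpa using hs1
  · rw [List.map_map]
    exact List.attach_map_subtype_val s

/-- the sets needed at stage `n` -/
def need (𝔸 : ℕ → List Wc → Set Wc) (n : ℕ) (B : Wc) : Set Wc :=
  {x | ∀ j ≤ n, ∀ s : List Wc, s.length ≤ n → (∀ y ∈ s, y ⊆ B) → x ∈ 𝔸 j s}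

theorem need_mem {q : Ultrafilter Wc} {𝔸 : ℕ → List Wc → Set Wc} (hA : ∀ j s, 𝔸 j s ∈ q) (n : ℕ)
    (B : Wc) : need 𝔸 n B ∈ q := by
  have h1 : (⋂ j ∈ Set.Iic n, ⋂ s ∈ {s : List Wc | s.length ≤ n ∧ ∀ y ∈ s, y ⊆ B}, 𝔸 j s) ∈ q := by
    rw [← Ultrafilter.mem_coe, Filter.biInter_mem (Set.finite_Iic n)]
    intro j _
    rw [Filter.biInter_mem (fin_states n B)]
    exact fun s _ => hA j s
  refine mem_of_superset h1 fun x hx j hj s hs1 hs2 => ?_
  exact Set.mem_iInter₂.1 (Set.mem_iInter₂.1 hx j hj) s ⟨hs1, hs2⟩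

theorem fusion (h : ℕ → ℕ) {p : Ultrafilter Wv} {q : Ultrafilter Wc} (hp : Ok p)
    (hV : {w | Var w} ∈ p) (hpq : ∀ a, p.map (sb a) = q) (hq : q * q = q)
    (𝔸 : ℕ → List Wc → Set Wc) (hA : ∀ j s, 𝔸 j s ∈ q) :
    ∃ W : ℕ → Wv, (∀ i, Var (W i) ∧ Fn (W i)) ∧ (∀ i, ∀ t ∈ W i, ∀ t' ∈ W (i + 1), t.1 < t'.1) ∧
      ∀ (j : ℕ) (C : ℕ → Finset ℕ) (c : ℕ → ℕ), Blk C → (∀ i ∈ C 0, j ≤ i) → (∀ i, c i ≤ h i) →
        ∀ l, ((C l).biUnion fun i => sb (c i) (W i)) ∈
          𝔸 j ((List.range l).map fun l' => (C l').biUnion fun i => sb (c i) (W i)) := by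
  classical
  -- the recursion
  let σ := ℕ × Wc × {Q : Set Wc // Q ∈ q}
  have hpick : ∀ (n : ℕ) (st : σ), ∃ W : Wv, Var W ∧ Fn W ∧ Bd st.1 W ∧
      ∀ a ≤ h n, sb a W ∈ star q st.2.2.1 := fun n st => pick hp hV hpq st.1 (h n)
        (star_mem hq st.2.2.2)
  choose pk hpk1 hpk2 hpk3 hpk4 using hpick
  let B' : ℕ → σ → Wc := fun n st => st.2.1 ∪ (Finset.range (h n + 1)).biUnion fun a => sb a (pk n st)
  have hQ' : ∀ (n : ℕ) (st : σ), st.2.2.1 ∩ {y | ∀ a ≤ h n, sb a (pk n st) ∪ y ∈ star q st.2.2.1} ∩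
      need 𝔸 (n + 1) (B' n st) ∈ q := by
    intro n st
    refine inter_mem (inter_mem st.2.2.2 ?_) (need_mem hA _ _)
    have h1 : (⋂ a ∈ Set.Iic (h n), {y | sb a (pk n st) ∪ y ∈ star q st.2.2.1}) ∈ q := by
      rw [← Ultrafilter.mem_coe, Filter.biInter_mem (Set.finite_Iic _)]
      exact fun a ha => star_star hq (hpk4 n st a ha)
    exact mem_of_superset h1 fun y hy a ha => Set.mem_iInter₂.1 hy a ha
  let nx : ℕ → σ → σ := fun n st => ((pk n st).sup Prod.fst + 1, B' n st, ⟨_, hQ' n st⟩)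
  let f : ℕ → σ := fun n => Nat.rec (motive := fun _ => σ) (0, ∅, ⟨need 𝔸 0 ∅, need_mem hA 0 ∅⟩) nx n
  have hfs : ∀ n, f (n + 1) = nx n (f n) := fun n => rfl
  obtain ⟨W, hW⟩ : ∃ W : ℕ → Wv, W = fun n => pk n (f n) := ⟨_, rfl⟩
  obtain ⟨Q, hQdef⟩ : ∃ Q : ℕ → Set Wc, Q = fun n => (f n).2.2.1 := ⟨_, rfl⟩
  obtain ⟨B, hB⟩ : ∃ B : ℕ → Wc, B = fun n => (f n).2.1 := ⟨_, rfl⟩
  have hQs : ∀ n, Q (n + 1) = Q n ∩ {y | ∀ a ≤ h n, sb a (W n) ∪ y ∈ star q (Q n)} ∩
      need 𝔸 (n + 1) (B (n + 1)) := by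
    intro n
    rw [hQdef, hW, hB]
  have hBs : ∀ n, B (n + 1) = B n ∪ (Finset.range (h n + 1)).biUnion fun a => sb a (W n) := by
    intro n
    rw [hW, hB]
  have hW1 : ∀ n a, a ≤ h n → sb a (W n) ∈ star q (Q n) := by
    intro n a ha
    rw [hW, hQdef]
    exact hpk4 n (f n) a ha
  have hQmono : ∀ m n, m ≤ n → Q n ⊆ Q m := by
    intro m n hmn
    induction n, hmn using Nat.le_induction with
    | base => exact subset_rfl
    | succ n _ ih =>
      rw [hQs]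
      exact fun x hx => ih hx.1.1
  have hBmono : ∀ m n, m ≤ n → B m ⊆ B n := by
    intro m n hmn
    induction n, hmn using Nat.le_induction with
    | base => exact subset_rfl
    | succ n _ ih =>
      rw [hBs]
      exact fun x hx => Finset.mem_union_left _ (ih hx)
  have hneed : ∀ n, Q n ⊆ need 𝔸 n (B n) := by
    intro n
    rcases n with _ | n
    · rw [hQdef, hB]
      exact subset_rfl
    · rw [hQs]
      exact fun x hx => hx.2
  -- products
  have hprod : ∀ (c : ℕ → ℕ), (∀ i, c i ≤ h i) → ∀ F : Finset ℕ, F.Nonempty → ∀ m, (∀ i ∈ F, m ≤ i) →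
      (F.biUnion fun i => sb (c i) (W i)) ∈ star q (Q m) := by
    intro c hc F
    induction F using Finset.induction_on_min with
    | empty => exact fun h => absurd h Finset.not_nonempty_empty
    | insert a s has ih =>
      intro _ m hm
      rw [Finset.biUnion_insert]
      apply star_mono q (hQmono m a (hm a (Finset.mem_insert_self a s)))
      by_cases hs : s.Nonempty
      · have h1 := ih hs (a + 1) (fun i hi => has i hi)
        have h2 := h1.1
        rw [hQs] at h2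
        exact h2.1.2 (c a) (hc a)
      · rw [Finset.not_nonempty_iff_eq_empty] at hs
        rw [hs, Finset.biUnion_empty, Finset.union_empty]
        exact hW1 a (c a) (hc a)
  refine ⟨W, fun i => ?_, fun i t ht t' ht' => ?_, fun j C c hC hj hc l => ?_⟩
  · rw [hW]
    exact ⟨hpk1 i (f i), hpk2 i (f i)⟩
  · have h1 : (f (i + 1)).1 = (W i).sup Prod.fst + 1 := by
      rw [hW]
    have h2 : t.1 ≤ (W i).sup Prod.fst := Finset.le_sup (f := Prod.fst) ht
    have h3 : (f (i + 1)).1 ≤ t'.1 := by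
      rw [hW] at ht'
      exact (hpk3 (i + 1) (f (i + 1))).2 t' ht'
    omega
  · obtain ⟨m, hm1, hm2⟩ : ∃ m, m ∈ C l ∧ ∀ i ∈ C l, m ≤ i :=
      ⟨(C l).min' (hC.1 l), Finset.min'_mem _ _, fun i hi => Finset.min'_le _ _ hi⟩
    have h1 : (C l).biUnion (fun i => sb (c i) (W i)) ∈ Q m :=
      (hprod c hc (C l) (hC.1 l) m hm2).1
    have hlt : ∀ l' < l, ∀ i ∈ C l', i < m := fun l' hl' i hi => hC.lt hl' i hi m hm1
    have hjm : j ≤ m := by
      rcases Nat.eq_zero_or_pos l with h0 | h0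
      · rw [h0] at hm1
        exact hj m hm1
      · obtain ⟨i, hi⟩ := hC.1 0
        have := hj i hi
        have := hlt 0 h0 i hi
        omega
    have hge : ∀ l, ∀ i ∈ C l, l ≤ i := by
      intro l
      induction l with
      | zero => exact fun i _ => Nat.zero_le i
      | succ l ih =>
        intro i hi
        obtain ⟨i', hi'⟩ := hC.1 l
        have := ih i' hi'
        have := hC.2 l i' hi' i hi
        omega
    refine hneed m h1 j hjm _ ?_ ?_
    · rw [List.length_map, List.length_range]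
      exact hge l m hm1
    · intro y hy
      obtain ⟨l', hl', rfl⟩ := List.mem_map.1 hy
      rw [List.mem_range] at hl'
      intro t ht
      obtain ⟨i, hi, hti⟩ := Finset.mem_biUnion.1 ht
      apply hBmono (i + 1) m (hlt l' hl' i hi)
      rw [hBs]
      exact Finset.mem_union_right _ (Finset.mem_biUnion.2 ⟨c i, Finset.mem_range.2
        (by have := hc i; omega), hti⟩)

end Pool.Agent.J6H10.LW
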