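import Pool.Agent.J6H10.LW.Conv
import Pool.Agent.W68.GapMain

/-!
# Consecutive prime gaps attached to located words
-/

set_option autoImplicit false

namespace Pool.Agent.J6H10.LW

open Pool.Agent.H752R3.MT Pool.Agent.W68.Mil Pool.Agent.W68.Her

/-- the weight of a word -/
def wt (d : ℕ × ℕ → ℕ) (w : Wc) : ℤ := ∑ t ∈ w, (d t : ℤ)

/-- positions -/
def posW (d : ℕ × ℕ → ℕ) (Z : ℕ → Wc) (m : ℕ) : ℤ := ∑ l ∈ Finset.range m, wt d (Z l)

theorem wt_pos {d : ℕ × ℕ → ℕ} (hd : ∀ t, 1 ≤ d t) {w : Wc} (hw : w.Nonempty) : 1 ≤ wt d w := by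
  obtain ⟨a, ha⟩ := hw
  have h1 : (d a : ℤ) ≤ ∑ a ∈ w, (d a : ℤ) :=
    Finset.single_le_sum (f := fun a => (d a : ℤ)) (fun _ _ => Int.natCast_nonneg _) ha
  have h2 : (1 : ℤ) ≤ d a := by exact_mod_cast hd a
  unfold wt
  linarith

theorem posW_succ (d : ℕ × ℕ → ℕ) (Z : ℕ → Wc) (m : ℕ) :
    posW d Z (m + 1) = posW d Z m + wt d (Z m) := by
  unfold posW
  rw [Finset.sum_range_succ]

theorem posW_strictMono {d : ℕ × ℕ → ℕ} (hd : ∀ t, 1 ≤ d t) {Z : ℕ → Wc} (hZ : BW Z) :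
    StrictMono (posW d Z) := strictMono_nat_of_lt_succ fun m => by
  rw [posW_succ]
  have := wt_pos hd (hZ.1 m).1
  linarith

theorem le_posW {d : ℕ × ℕ → ℕ} (hd : ∀ t, 1 ≤ d t) {Z : ℕ → Wc} (hZ : BW Z) (m : ℕ) :
    (m : ℤ) ≤ posW d Z m := by
  induction m with
  | zero => simp [posW]
  | succ m ih =>
    rw [posW_succ]
    have := wt_pos hd (hZ.1 m).1
    push_cast
    linarith

/-- the exact patterns attached to block sequences of words -/
def goodW (d : ℕ × ℕ → ℕ) (q : ℕ) (r : ℤ) (Z : ℕ → Wc) : Prop :=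
  ExF (Set.range fun m => ((q : ℤ), r + posW d Z m))

theorem goodW_closed {d : ℕ × ℕ → ℕ} (hd : ∀ a, 1 ≤ d a) (q : ℕ) (r : ℤ) (Z : ℕ → Wc)
    (hZ : BW Z) (hg : ¬ goodW d q r Z) :
    ∃ m, ∀ Z', BW Z' → (∀ i < m, Z' i = Z i) → ¬ goodW d q r Z' := by
  unfold goodW ExF at hg
  push Not at hg
  obtain ⟨T, hT1, hT2⟩ := hg
  obtain ⟨M, hM⟩ : ∃ M : ℕ, ∀ f ∈ T, f.2 - r < M := by
    refine ⟨(T.sup fun f => (f.2 - r).toNat) + 1, fun f hf => ?_⟩
    have h1 : (f.2 - r).toNat ≤ T.sup fun f => (f.2 - r).toNat :=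
      Finset.le_sup (f := fun f : ℤ × ℤ => (f.2 - r).toNat) hf
    have h2 := Int.self_le_toNat (f.2 - r)
    have h3 : ((f.2 - r).toNat : ℤ) ≤ ((T.sup fun f => (f.2 - r).toNat : ℕ) : ℤ) := by
      exact_mod_cast h1
    push_cast
    linarith
  refine ⟨M, fun Z' hZ' hZZ hg' => ?_⟩
  have hp : ∀ m ≤ M, posW d Z' m = posW d Z m := by
    intro m hm
    unfold posW
    refine Finset.sum_congr rfl fun l hl => ?_
    rw [hZZ l (by have := Finset.mem_range.1 hl; omega)]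
  refine (congr_inf (fun f hf => ?_) (hg' T hT1)) hT2
  constructor
  · rintro ⟨m, rfl⟩
    refine ⟨m, ?_⟩
    have h1 := hM _ hf
    simp only at h1 ⊢
    have h2 := le_posW hd hZ' m
    have h3 : m ≤ M := by
      have : (m : ℤ) < M := by linarith
      exact_mod_cast this.le
    rw [hp m h3]
  · rintro ⟨m, rfl⟩
    refine ⟨m, ?_⟩
    have h1 := hM _ hf
    simp only at h1 ⊢
    have h2 := le_posW hd hZ m
    have h3 : m ≤ M := by
      have : (m : ℤ) < M := by linarith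
      exact_mod_cast this.le
    rw [hp m h3]

theorem BW.disj {Z : ℕ → Wc} (hZ : BW Z) {i j : ℕ} (hij : i ≠ j) : Disjoint (Z i) (Z j) := by
  rw [Finset.disjoint_left]
  intro t ht ht'
  rcases Nat.lt_or_gt_of_ne hij with h | h
  · exact absurd (hZ.lt h t ht t ht') (lt_irrefl _)
  · exact absurd (hZ.lt h t ht' t ht) (lt_irrefl _)

theorem wt_biUnion (d : ℕ × ℕ → ℕ) {Z : ℕ → Wc} (hZ : BW Z) (F : Finset ℕ) :
    wt d (F.biUnion Z) = ∑ i ∈ F, wt d (Z i) := by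
  unfold wt
  rw [Finset.sum_biUnion (fun i _ j _ hij => hZ.disj hij)]

theorem goodW_exists {d : ℕ × ℕ → ℕ} (hd : ∀ a, 1 ≤ d a) (q : ℕ) (hq : 1 ≤ q) (r : ℤ)
    (hr : IsCoprime r (q : ℤ)) (X : ℕ → Wc) (hX : BW X) :
    ∃ C : ℕ → Finset ℕ, Blk C ∧ goodW d q r (fun l => (C l).biUnion X) := by
  classical
  set e : ℕ → ℕ := fun a => ∑ t ∈ X a, d t with he
  have he1 : ∀ a, 1 ≤ e a := by
    intro a
    have h1 := wt_pos hd (hX.1 a).1
    unfold wt at h1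
    have : ((e a : ℕ) : ℤ) = ∑ t ∈ X a, (d t : ℤ) := by rw [he]; push_cast; rfl
    rw [← this] at h1
    exact_mod_cast h1
  have hblk : Blk (fun i => ({i} : Finset ℕ)) := by
    refine ⟨fun i => Finset.singleton_nonempty i, fun i x hx y hy => ?_⟩
    rw [Finset.mem_singleton] at hx hy
    omega
  obtain ⟨C, hC, -, hg⟩ := Pool.Agent.W68.Gap.good_exists he1 q hq r hr _ hblk
  refine ⟨C, hC, ?_⟩
  have hpos : ∀ m, posW d (fun l => (C l).biUnion X) m = Pool.Agent.W68.Gap.pos e C m := by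
    intro m
    unfold posW Pool.Agent.W68.Gap.pos
    refine Finset.sum_congr rfl fun l _ => ?_
    rw [wt_biUnion d hX]
    refine Finset.sum_congr rfl fun a _ => ?_
    rw [he]
    unfold wt
    push_cast
    rfl
  unfold goodW
  simp only [hpos]
  exact hg

/-- **Hindman - van der Waerden systems of consecutive prime gaps.** -/
theorem main_gapsW (h : ℕ → ℕ) (d : ℕ → ℕ × ℕ → ℕ) (hd : ∀ j t, 1 ≤ d j t) (q : ℕ → ℕ)
    (hq : ∀ j, 1 ≤ q j) (r : ℕ → ℤ) (hr : ∀ j, IsCoprime (r j) (q j : ℤ)) :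
    ∃ (U V : ℕ → Finset ℕ) (κ : ℕ → ℕ), (∀ i, (V i).Nonempty ∧ Disjoint (U i) (V i)) ∧
      (∀ i, ∀ a ∈ U i ∪ V i, ∀ b ∈ U (i + 1) ∪ V (i + 1), a < b) ∧
      ∀ (j k : ℕ) (F : ℕ → Finset ℕ) (c : ℕ → ℕ), (∀ i, c i ≤ h i) →
        (∀ l < k, (F l).Nonempty) → (∀ l < k, ∀ i ∈ F l, j ≤ i) →
        (∀ l, l + 1 < k → ∀ i ∈ F l, ∀ i' ∈ F (l + 1), i < i') →
        ∀ R : ℕ, {n : ℕ | (n : ℤ) ≡ r j [ZMOD q j] ∧
          ∀ y : ℤ, |y| ≤ R → (Nat.Prime ((n : ℤ) + y).toNat ↔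
            ∃ m ≤ k, y = ∑ l ∈ Finset.range m, ∑ i ∈ F l,
              (∑ a ∈ U i, (d j (a, κ a) : ℤ) + ∑ a ∈ V i, (d j (a, c i) : ℤ)))}.Infinite := by
  classical
  obtain ⟨U, V, κ, hUV, hlt, hBW, hg⟩ := closed_wd h (fun j => goodW (d j) (q j) (r j))
    (fun j Z hZ hg => goodW_closed (hd j) (q j) (r j) Z hZ hg)
    (fun j X hX => goodW_exists (hd j) (q j) (hq j) (r j) (hr j) X hX)
  refine ⟨U, V, κ, hUV, hlt, fun j k F c hc hF1 hF2 hF3 R => ?_⟩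
  obtain ⟨G, hG1, hG2, hG3, hG4⟩ := Pool.Agent.W68.Gap.extend j k F hF1 hF2 hF3 R
  set X : ℕ → Wc := fun i => wd U V κ i (c i) with hX
  have hXB : BW X := hBW c
  set Z : ℕ → Wc := fun l => (G l).biUnion X with hZ
  have hZB : BW Z := hXB.comp hG1
  have hgood : ExF (Set.range fun m => ((q j : ℤ), r j + posW (d j) Z m)) :=
    hg j G c hG1 (hG3 0) hc
  have hwt : ∀ i, wt (d j) (X i) =
      ∑ a ∈ U i, (d j (a, κ a) : ℤ) + ∑ a ∈ V i, (d j (a, c i) : ℤ) := fun i =>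
    sum_wd (hUV i).2 (c i) (fun t => (d j t : ℤ))
  have hsum : ∀ l, wt (d j) (Z l) = ∑ i ∈ G l, wt (d j) (X i) := fun l => wt_biUnion (d j) hXB _
  have hp : ∀ m ≤ k, posW (d j) Z m = ∑ l ∈ Finset.range m, ∑ i ∈ F l,
      (∑ a ∈ U i, (d j (a, κ a) : ℤ) + ∑ a ∈ V i, (d j (a, c i) : ℤ)) := by
    intro m hm
    unfold posW
    refine Finset.sum_congr rfl fun l hl => ?_
    rw [hsum, hG2 l (by have := Finset.mem_range.1 hl; omega)]
    exact Finset.sum_congr rfl fun i _ => hwt i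
  have hbig : ∀ m, k < m → (R : ℤ) < posW (d j) Z m := by
    intro m hm
    have h1 : posW (d j) Z (k + 1) ≤ posW (d j) Z m :=
      (posW_strictMono (hd j) hZB).monotone hm
    have h2 : (0 : ℤ) ≤ posW (d j) Z k :=
      le_trans (Int.natCast_nonneg k) (le_posW (hd j) hZB k)
    have h3 : ((G k).card : ℤ) ≤ ∑ i ∈ G k, wt (d j) (X i) := by
      calc ((G k).card : ℤ) = ∑ _i ∈ G k, (1 : ℤ) := by simp
        _ ≤ _ := Finset.sum_le_sum fun i _ => wt_pos (hd j) (hXB.1 i).1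
    have h4 : (R : ℤ) < (G k).card := by exact_mod_cast hG4
    rw [posW_succ, hsum] at h1
    linarith
  have h1 := Pool.Agent.W68.Gap.window (hq j) (r := r j)
    (P := fun y => ∃ m, y = posW (d j) Z m) (by
    have : {f : ℤ × ℤ | f.1 = (q j : ℤ) ∧ ∃ m, f.2 - r j = posW (d j) Z m} =
        Set.range fun m => ((q j : ℤ), r j + posW (d j) Z m) := by
      ext f
      simp only [Set.mem_ofPred_eq, Set.mem_range]
      constructor
      · rintro ⟨h1, m, h2⟩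
        refine ⟨m, ?_⟩
        ext
        · exact h1.symm
        · simp only
          linarith
      · rintro ⟨m, rfl⟩
        refine ⟨rfl, m, ?_⟩
        simp only
        ring
    rw [this]
    exact hgood) R
  refine h1.mono ?_
  rintro n ⟨hn1, hn2⟩
  refine ⟨hn1, fun y hy => ?_⟩
  rw [hn2 y hy]
  constructor
  · rintro ⟨m, rfl⟩
    by_cases hm : m ≤ k
    · exact ⟨m, hm, hp m hm⟩
    · exfalso
      have h5 := hbig m (by omega)
      have h6 := le_abs_self (posW (d j) Z m)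
      linarith
  · rintro ⟨m, hm, h2⟩
    exact ⟨m, by rw [hp m hm]; exact h2⟩

end Pool.Agent.J6H10.LW
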