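import Pool.Agent.N284.CS.Ideal

/-!
# Located words: the ultrafilters

A located word is a finite set of pairs (place, letter). `p` concentrates on the words which contain the
variable `none`, `q` on the words without variable, `q` is idempotent, and all substitutions map `p` to
the same `q`.
-/

set_option autoImplicit false

namespace Pool.Agent.J6H10.LW

open Filter Topology

/-- finite sets of pairs (place, letter) -/
abbrev Wc := Finset (ℕ × ℕ)

/-- finite sets of pairs (place, letter or variable) -/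
abbrev Wv := Finset (ℕ × Option ℕ)

/-- the substitution of the letter `a` for the variable -/
def sb (a : ℕ) (w : Wv) : Wc := w.image fun t => (t.1, t.2.getD a)

/-- a constant word as a variable word -/
def em (w : Wc) : Wv := w.image fun t => (t.1, some t.2)

/-- one letter at every place -/
def Fn {β : Type} (w : Finset (ℕ × β)) : Prop := ∀ t ∈ w, ∀ t' ∈ w, t.1 = t'.1 → t = t'

/-- nonempty, with all places `≥ n` -/
def Bd {β : Type} (n : ℕ) (w : Finset (ℕ × β)) : Prop := w.Nonempty ∧ ∀ t ∈ w, n ≤ t.1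

/-- union of words -/
@[reducible] def finSemigroup (β : Type) [DecidableEq β] : Semigroup (Finset (ℕ × β)) where
  mul x y := x ∪ y
  mul_assoc := Finset.union_assoc

attribute [local instance] finSemigroup Ultrafilter.mul Ultrafilter.semigroup

theorem mem_mul {β : Type} [DecidableEq β] (U V : Ultrafilter (Finset (ℕ × β)))
    (s : Set (Finset (ℕ × β))) : s ∈ U * V ↔ {x | {y | x ∪ y ∈ s} ∈ V} ∈ U := by
  have h := Ultrafilter.eventually_mul U V (fun x => x ∈ s)
  exact h

theorem map_mul' {α β : Type} [DecidableEq α] [DecidableEq β]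
    (θ : Finset (ℕ × α) → Finset (ℕ × β)) (hθ : ∀ x y, θ (x ∪ y) = θ x ∪ θ y)
    (U V : Ultrafilter (Finset (ℕ × α))) : (U * V).map θ = U.map θ * V.map θ := by
  apply Ultrafilter.ext
  intro s
  rw [Ultrafilter.mem_map, mem_mul, mem_mul, Ultrafilter.mem_map]
  have : {x | {y | x ∪ y ∈ θ ⁻¹' s} ∈ V} = θ ⁻¹' {x | {y | x ∪ y ∈ s} ∈ V.map θ} := by
    ext x
    simp only [Set.mem_ofPred_eq, Set.mem_preimage, Ultrafilter.mem_map, hθ]
    rfl
  rw [this]

theorem continuous_map' {α β : Type} (θ : α → β) :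
    Continuous (fun U : Ultrafilter α => U.map θ) := by
  refine continuous_generateFrom_iff.2 ?_
  rintro _ ⟨s, rfl⟩
  exact ultrafilter_isOpen_basic (θ ⁻¹' s)

/-- ultrafilters of words which start arbitrarily far out -/
def Ok {β : Type} (U : Ultrafilter (Finset (ℕ × β))) : Prop :=
  (∀ n, {w | Bd n w} ∈ U) ∧ {w | Fn w} ∈ U

theorem Ok.mul {β : Type} [DecidableEq β] {U V : Ultrafilter (Finset (ℕ × β))} (hU : Ok U)
    (hV : Ok V) : Ok (U * V) := by
  refine ⟨fun n => ?_, ?_⟩
  · rw [mem_mul]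
    filter_upwards [hU.1 n] with x hx
    filter_upwards [hV.1 n] with y hy
    refine ⟨hx.1.mono Finset.subset_union_left, fun t ht => ?_⟩
    rcases Finset.mem_union.1 ht with h | h
    · exact hx.2 t h
    · exact hy.2 t h
  · rw [mem_mul]
    filter_upwards [hU.2] with x hx
    filter_upwards [hV.1 (x.sup Prod.fst + 1), hV.2] with y hy hy2
    intro t ht t' ht' htt
    have hlt : ∀ s ∈ x, ∀ s' ∈ y, s.1 < s'.1 := fun s hs s' hs' => by
      have h1 : s.1 ≤ x.sup Prod.fst := Finset.le_sup (f := Prod.fst) hs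
      have h2 := hy.2 s' hs'
      omega
    rcases Finset.mem_union.1 ht with h | h <;> rcases Finset.mem_union.1 ht' with h' | h'
    · exact hx t h t' h' htt
    · have := hlt t h t' h'
      omega
    · have := hlt t' h' t h
      omega
    · exact hy2 t h t' h' htt

theorem isClosed_Ok {β : Type} : IsClosed {U : Ultrafilter (Finset (ℕ × β)) | Ok U} := by
  have h1 : {U : Ultrafilter (Finset (ℕ × β)) | Ok U} =
      (⋂ n, {U | {w | Bd n w} ∈ U}) ∩ {U | {w | Fn w} ∈ U} := by
    ext U
    simp only [Ok, Set.mem_inter_iff, Set.mem_ofPred_eq, Set.mem_iInter]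
  rw [h1]
  exact (isClosed_iInter fun n => ultrafilter_isClosed_basic _).inter (ultrafilter_isClosed_basic _)

theorem ok_far {β : Type} (b : β) :
    Ok ((hyperfilter ℕ).map fun n => ({(n, b)} : Finset (ℕ × β))) := by
  refine ⟨fun n => ?_, ?_⟩
  · rw [Ultrafilter.mem_map]
    have h1 : {m : ℕ | n ≤ m} ∈ hyperfilter ℕ := by
      apply mem_hyperfilter_of_finite_compl
      have : {m : ℕ | n ≤ m}ᶜ = Set.Iio n := by
        ext m; simp
      rw [this]
      exact Set.finite_Iio n
    filter_upwards [h1] with m hm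
    refine ⟨Finset.singleton_nonempty _, fun t ht => ?_⟩
    rw [Finset.mem_singleton] at ht
    rw [ht]
    exact hm
  · rw [Ultrafilter.mem_map]
    refine Filter.Eventually.of_forall fun m => ?_
    intro t ht t' ht' _
    rw [Finset.mem_singleton] at ht ht'
    rw [ht, ht']

theorem sb_union (a : ℕ) (x y : Wv) : sb a (x ∪ y) = sb a x ∪ sb a y := Finset.image_union _ _

theorem em_union (x y : Wc) : em (x ∪ y) = em x ∪ em y := Finset.image_union _ _

theorem sb_em (a : ℕ) (x : Wc) : sb a (em x) = x := by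
  unfold sb em
  rw [Finset.image_image]
  conv_rhs => rw [← Finset.image_id (s := x)]
  rfl

theorem Bd.sb {n : ℕ} {w : Wv} (h : Bd n w) (a : ℕ) : Bd n (sb a w) := by
  refine ⟨h.1.image _, fun t ht => ?_⟩
  obtain ⟨s, hs, rfl⟩ := Finset.mem_image.1 ht
  exact h.2 s hs

theorem Fn.sb {w : Wv} (h : Fn w) (a : ℕ) : Fn (sb a w) := by
  intro t ht t' ht' htt
  obtain ⟨s, hs, rfl⟩ := Finset.mem_image.1 ht
  obtain ⟨s', hs', rfl⟩ := Finset.mem_image.1 ht'
  rw [h s hs s' hs' htt]

theorem Bd.em {n : ℕ} {w : Wc} (h : Bd n w) : Bd n (em w) := by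
  refine ⟨h.1.image _, fun t ht => ?_⟩
  obtain ⟨s, hs, rfl⟩ := Finset.mem_image.1 ht
  exact h.2 s hs

theorem Fn.em {w : Wc} (h : Fn w) : Fn (em w) := by
  intro t ht t' ht' htt
  obtain ⟨s, hs, rfl⟩ := Finset.mem_image.1 ht
  obtain ⟨s', hs', rfl⟩ := Finset.mem_image.1 ht'
  rw [h s hs s' hs' htt]

theorem Ok.sb {U : Ultrafilter Wv} (h : Ok U) (a : ℕ) : Ok (U.map (sb a)) := by
  refine ⟨fun n => ?_, ?_⟩
  · rw [Ultrafilter.mem_map]
    filter_upwards [h.1 n] with x hx using hx.sb a
  · rw [Ultrafilter.mem_map]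
    filter_upwards [h.2] with x hx using hx.sb a

theorem Ok.em {U : Ultrafilter Wc} (h : Ok U) : Ok (U.map em) := by
  refine ⟨fun n => ?_, ?_⟩
  · rw [Ultrafilter.mem_map]
    filter_upwards [h.1 n] with x hx using hx.em
  · rw [Ultrafilter.mem_map]
    filter_upwards [h.2] with x hx using hx.em

/-- the words which contain the variable -/
def Var (w : Wv) : Prop := ∃ i, (i, none) ∈ w

/-- the compact semigroup of the far ultrafilters -/
abbrev MC := {U : Ultrafilter Wc // Ok U}

instance : Semigroup MC where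
  mul U V := ⟨U.1 * V.1, U.2.mul V.2⟩
  mul_assoc U V Z := Subtype.ext (mul_assoc U.1 V.1 Z.1)

theorem mc_mul (U V : MC) : (U * V).1 = U.1 * V.1 := rfl

theorem exists_pq : ∃ (p : Ultrafilter Wv) (q : Ultrafilter Wc), Ok p ∧ Ok q ∧ {w | Var w} ∈ p ∧
    (∀ a, p.map (sb a) = q) ∧ q * q = q := by
  have hcomp : CompactSpace MC := isCompact_iff_compactSpace.1 isClosed_Ok.isCompact
  have hne : Nonempty MC := ⟨⟨_, ok_far 0⟩⟩
  have hcont : ∀ r : MC, Continuous (fun x : MC => x * r) := fun r =>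
    ((Ultrafilter.continuous_mul_left r.1).comp continuous_subtype_val).subtype_mk _
  obtain ⟨L, hLn, hLc, hLi, hLm⟩ := Pool.Agent.N284.CS.t_ideal MC hcont
  obtain ⟨q, hqL, hqq⟩ := exists_idempotent_in_compact_subsemigroup hcont L hLn hLc.isCompact
    (fun x _ y hy => hLi x y hy)
  have hqq' : q.1 * q.1 = q.1 := congrArg Subtype.val hqq
  set q' : Ultrafilter Wv := q.1.map em with hq'
  have hq'q' : q' * q' = q' := by
    rw [hq', ← map_mul' _ em_union, hqq']
  have hq'a : ∀ a, q'.map (sb a) = q.1 := by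
    intro a
    rw [hq', Ultrafilter.map_map]
    have h2 : (sb a ∘ em : Wc → Wc) = id := by
      funext w
      exact sb_em a w
    rw [h2, Ultrafilter.map_id]
  have hq'Ok : Ok q' := q.2.em
  -- the compact semigroup of the ultrafilters `r * q'`
  set R : Set (Ultrafilter Wv) := (fun r => r * q') '' {r | Ok r ∧ {w | Var w} ∈ r} with hR
  have hRc : IsCompact R := by
    refine IsCompact.image ?_ (Ultrafilter.continuous_mul_left q')
    exact (isClosed_Ok.inter (ultrafilter_isClosed_basic _)).isCompact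
  have hVar : ∀ U V : Ultrafilter Wv, {w | Var w} ∈ U → {w | Var w} ∈ U * V := by
    intro U V hU
    rw [mem_mul]
    filter_upwards [hU] with x hx
    obtain ⟨i, hi⟩ := hx
    exact Filter.Eventually.of_forall fun y => ⟨i, Finset.mem_union_left _ hi⟩
  have hVar' : ∀ U V : Ultrafilter Wv, {w | Var w} ∈ V → {w | Var w} ∈ U * V := by
    intro U V hV
    rw [mem_mul]
    refine Filter.Eventually.of_forall fun x => ?_
    show {y | x ∪ y ∈ {w | Var w}} ∈ V
    filter_upwards [hV] with y hy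
    obtain ⟨i, hi⟩ := hy
    exact ⟨i, Finset.mem_union_right _ hi⟩
  have hRm : ∀ᵉ (x ∈ R) (y ∈ R), x * y ∈ R := by
    rintro _ ⟨r, ⟨hr1, hr2⟩, rfl⟩ _ ⟨s, ⟨hs1, hs2⟩, rfl⟩
    refine ⟨r * q' * s, ⟨(hr1.mul hq'Ok).mul hs1, hVar' _ _ hs2⟩, ?_⟩
    show r * q' * s * q' = r * q' * (s * q')
    rw [mul_assoc (r * q')]
  have hRn : R.Nonempty := by
    refine ⟨_, (hyperfilter ℕ).map (fun n => ({(n, none)} : Wv)), ⟨ok_far none, ?_⟩, rfl⟩
    rw [Ultrafilter.mem_map]
    exact Filter.Eventually.of_forall fun m => ⟨m, Finset.mem_singleton_self _⟩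
  obtain ⟨p', ⟨r, ⟨hr1, hr2⟩, hrp⟩, hpp⟩ := exists_idempotent_in_compact_subsemigroup
    (fun r : Ultrafilter Wv => Ultrafilter.continuous_mul_left r) R hRn hRc hRm
  have hrp' : p' = r * q' := hrp.symm
  have hp'q' : p' * q' = p' := by rw [hrp', mul_assoc, hq'q']
  have hp'Ok : Ok p' := by rw [hrp']; exact hr1.mul hq'Ok
  refine ⟨q' * p', q.1, hq'Ok.mul hp'Ok, q.2, hVar' _ _ (by rw [hrp']; exact hVar _ _ hr2),
    fun a => ?_, hqq'⟩
  -- the image
  have hx : (q' * p').map (sb a) = q.1 * ((r.map (sb a)) * q.1) := by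
    rw [map_mul' _ (sb_union a), hq'a, hrp', map_mul' _ (sb_union a), hq'a]
  have hxOk : Ok ((q' * p').map (sb a)) := (hq'Ok.mul hp'Ok).sb a
  set x : MC := ⟨(q' * p').map (sb a), hxOk⟩ with hxdef
  have hxL : x ∈ L := by
    have h1 : x = (q * ⟨r.map (sb a), hr1.sb a⟩) * q := by
      apply Subtype.ext
      rw [mc_mul, mc_mul]
      show (q' * p').map (sb a) = q.1 * r.map (sb a) * q.1
      rw [hx, mul_assoc]
    rw [h1]
    exact hLi _ _ hqL
  have hqx : q * x = x := by
    apply Subtype.ext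
    rw [mc_mul]
    show q.1 * (q' * p').map (sb a) = (q' * p').map (sb a)
    rw [hx, ← mul_assoc, hqq']
  have hxx : x * x = x := by
    apply Subtype.ext
    rw [mc_mul]
    show (q' * p').map (sb a) * (q' * p').map (sb a) = (q' * p').map (sb a)
    rw [← map_mul' _ (sb_union a)]
    congr 1
    calc q' * p' * (q' * p') = q' * (p' * q') * p' := by simp only [mul_assoc]
      _ = q' * p' * p' := by rw [hp'q']
      _ = q' * (p' * p') := mul_assoc _ _ _
      _ = q' * p' := by rw [hpp]
  obtain ⟨z, hz⟩ := hLm x hxL q hqL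
  have hqx2 : q * x = q := by
    calc q * x = z * x * x := by rw [← hz]
      _ = z * (x * x) := mul_assoc _ _ _
      _ = z * x := by rw [hxx]
      _ = q := hz.symm
  have : x = q := by rw [← hqx, hqx2]
  exact congrArg Subtype.val this

end Pool.Agent.J6H10.LW
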